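import Mathlib

/-!
Definition: Grothendieck spaces.
-/

namespace Pool.Agent.Helper5.LpG

open Filter Topology

/-- `X` is a Grothendieck space: every sequence in the dual of `X` which converges in the
weak-star topology converges in the weak topology of the Banach space `X*`. -/
def IsGrothendieck (𝕜 : Type*) (X : Type*) [RCLike 𝕜] [NormedAddCommGroup X] [NormedSpace 𝕜 X] :
    Prop :=
  ∀ (φ : ℕ → StrongDual 𝕜 X) (φ₀ : StrongDual 𝕜 X),
    Tendsto (fun n => StrongDual.toWeakDual (φ n)) atTop (𝓝 (StrongDual.toWeakDual φ₀)) →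
      Tendsto (fun n => toWeakSpace 𝕜 (StrongDual 𝕜 X) (φ n)) atTop
        (𝓝 (toWeakSpace 𝕜 (StrongDual 𝕜 X) φ₀))

end Pool.Agent.Helper5.LpG
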