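import Pool.Agent.Helper5.LpG.Defs

/-!
A criterion for spaces which are not Grothendieck.
-/

namespace Pool.Agent.Helper5.LpG

open Filter Topology Finset

variable {𝕜 : Type*} [RCLike 𝕜]

theorem exists_ultralimit {X : Type*} [NormedAddCommGroup X] [NormedSpace 𝕜 X]
    (ψ : ℕ → StrongDual 𝕜 X) (hψ : ∀ n, ‖ψ n‖ ≤ 1) :
    ∃ φ : StrongDual 𝕜 X, ∀ x, Tendsto (fun n => ψ n x) (hyperfilter ℕ : Filter ℕ) (𝓝 (φ x)) := by
  have hc : IsCompact (WeakDual.toStrongDual ⁻¹' Metric.closedBall (0 : StrongDual 𝕜 X) 1) :=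
    WeakDual.isCompact_closedBall 0 1
  obtain ⟨φ, -, hφ⟩ := hc.ultrafilter_le_nhds
    ((hyperfilter ℕ).map fun n => StrongDual.toWeakDual (ψ n)) (by
      rw [Ultrafilter.coe_map, le_principal_iff, Filter.mem_map]
      refine Filter.univ_mem' fun n => ?_
      simpa using hψ n)
  refine ⟨WeakDual.toStrongDual φ, fun x => ?_⟩
  have h1 : Tendsto (fun n => StrongDual.toWeakDual (ψ n)) (hyperfilter ℕ : Filter ℕ) (𝓝 φ) := hφ
  exact ((WeakDual.eval_continuous x).tendsto φ).comp h1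

theorem not_isGrothendieck {A : Type*} [NormedAddCommGroup A] [NormedSpace 𝕜 A] [CompleteSpace A]
    (D : ℕ → ℕ → StrongDual 𝕜 A) (hD : ∀ k i, ‖D k i‖ ≤ 1) (C : ℝ)
    (hsum : ∀ k n T, n ≤ k → ∑ i ∈ range n, ‖D k i T‖ ≤ C * ‖T‖)
    (V : ℕ → A) (hV : ∀ i, ‖V i‖ ≤ 1)
    (hDV : ∀ i j k, i < k → j < k → D k j (V i) = if i = j then 1 else 0) :
    ¬ IsGrothendieck 𝕜 A := by
  intro hG
  choose φ hφ using fun i => exists_ultralimit (fun k => D k i) (fun k => hD k i)
  have hlarge : ∀ n : ℕ, ∀ᶠ k in (hyperfilter ℕ : Filter ℕ), n < k := fun n =>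
    Nat.hyperfilter_le_atTop (eventually_gt_atTop n)
  -- bound of the partial sums
  have hb : ∀ T n, ∑ i ∈ range n, ‖φ i T‖ ≤ C * ‖T‖ := by
    intro T n
    have h1 : Tendsto (fun k => ∑ i ∈ range n, ‖D k i T‖) (hyperfilter ℕ : Filter ℕ)
        (𝓝 (∑ i ∈ range n, ‖φ i T‖)) := tendsto_finsetSum _ fun i _ => (hφ i T).norm
    exact le_of_tendsto h1 ((hlarge n).mono fun k hk => hsum k n T hk.le)
  have hs : ∀ T, Summable fun i => φ i T := fun T =>
    Summable.of_norm (summable_of_sum_range_le (fun i => norm_nonneg _) (hb T))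
  -- the values at `V`
  have hφV : ∀ i j, φ j (V i) = if i = j then 1 else 0 := by
    intro i j
    refine tendsto_nhds_unique (hφ j (V i)) ?_
    refine tendsto_const_nhds.congr' ?_
    filter_upwards [hlarge i, hlarge j] with k hi hj
    exact (hDV i j k hi hj).symm
  set ψ : ℕ → StrongDual 𝕜 A := fun n => ∑ i ∈ range n, φ i with hψ
  have hψa : ∀ n T, ψ n T = ∑ i ∈ range n, φ i T := fun n T => by simp [hψ]
  have hlim : Tendsto (fun n T => ψ n T) atTop (𝓝 fun T => ∑' i, φ i T) := by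
    rw [tendsto_pi_nhds]
    intro T
    simpa only [hψa] using (hs T).hasSum.tendsto_sum_nat
  set ψ₀ : StrongDual 𝕜 A := continuousLinearMapOfTendsto ψ hlim with hψ₀
  have hψ₀a : ∀ T, Tendsto (fun n => ψ n T) atTop (𝓝 (ψ₀ T)) := fun T => by
    rw [tendsto_pi_nhds] at hlim
    exact hlim T
  have hw : Tendsto (fun n => StrongDual.toWeakDual (ψ n)) atTop
      (𝓝 (StrongDual.toWeakDual ψ₀)) := by
    exact tendsto_iff_forall_eval_tendsto_topDualPairing.2 hψ₀a
  have hweak := hG ψ ψ₀ hw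
  -- the functional on the dual
  obtain ⟨Λ, hΛ⟩ := exists_ultralimit
    (fun i => NormedSpace.inclusionInDoubleDual 𝕜 A (V i))
    (fun i => (NormedSpace.double_dual_bound 𝕜 A (V i)).trans (hV i))
  have hΛψ : ∀ n, Λ (ψ n) = 0 := by
    intro n
    refine tendsto_nhds_unique (hΛ (ψ n)) (tendsto_const_nhds.congr' ?_)
    filter_upwards [hlarge n] with i hi
    rw [NormedSpace.dual_def, hψa]
    rw [Finset.sum_eq_zero]
    intro j hj
    rw [hφV, if_neg]
    rintro rfl
    exact absurd (Finset.mem_range.1 hj) (by omega)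
  have hΛψ₀ : Λ ψ₀ = 1 := by
    refine tendsto_nhds_unique (hΛ ψ₀) (tendsto_const_nhds.congr fun i => ?_)
    rw [NormedSpace.dual_def]
    refine tendsto_nhds_unique (tendsto_const_nhds.congr' ?_) (hψ₀a (V i))
    filter_upwards [eventually_gt_atTop i] with n hn
    rw [hψa, Finset.sum_eq_single i]
    · rw [hφV, if_pos rfl]
    · intro j _ hj
      rw [hφV, if_neg (fun h => hj h.symm)]
    · intro h; exact absurd (Finset.mem_range.2 hn) h
  have hlast : Tendsto (fun n => Λ (ψ n)) atTop (𝓝 (Λ ψ₀)) := by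
    have := (WeakBilin.eval_continuous (topDualPairing 𝕜 (StrongDual 𝕜 A)).flip Λ).tendsto
      (toWeakSpace 𝕜 (StrongDual 𝕜 A) ψ₀)
    exact this.comp hweak
  simp only [hΛψ, hΛψ₀] at hlast
  exact zero_ne_one (tendsto_nhds_unique tendsto_const_nhds hlast)

end Pool.Agent.Helper5.LpG
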