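import Mathlib

/-!
Multilinear maps and convex hulls.
-/

namespace Pool.Agent.Helper5.LpG

theorem norm_le_convexHull {k : ℕ} {E : Type*} [AddCommGroup E] [Module ℝ E]
    (f : MultilinearMap ℝ (fun _ : Fin k => E) ℂ) (S : Set E) (K : ℝ)
    (h : ∀ u : Fin k → E, (∀ i, u i ∈ S) → ‖f u‖ ≤ K) (u : Fin k → E)
    (hu : ∀ i, u i ∈ convexHull ℝ S) : ‖f u‖ ≤ K := by
  have key : ∀ (s : Finset (Fin k)) (u : Fin k → E), (∀ i ∈ s, u i ∈ convexHull ℝ S) →
      (∀ i ∉ s, u i ∈ S) → ‖f u‖ ≤ K := by
    intro s
    induction s using Finset.induction_on with
    | empty => intro u _ hu; exact h u fun i => hu i (by simp)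
    | insert j s hj ih =>
      intro u hu1 hu2
      have hsub : convexHull ℝ S ⊆ {v : E | ‖f (Function.update u j v)‖ ≤ K} := by
        refine convexHull_min ?_ ?_
        · intro v hv
          refine ih _ ?_ ?_
          · intro i hi
            rw [Function.update_of_ne (ne_of_mem_of_not_mem hi hj)]
            exact hu1 i (Finset.mem_insert_of_mem hi)
          · intro i hi
            by_cases hij : i = j
            · subst hij; simpa using hv
            · rw [Function.update_of_ne hij]
              exact hu2 i (by simp [hij, hi])
        · intro v hv w hw a b ha hb hab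
          simp only [Set.mem_ofPred_eq] at hv hw ⊢
          rw [f.map_update_add, f.map_update_smul, f.map_update_smul]
          calc ‖a • f (Function.update u j v) + b • f (Function.update u j w)‖
              ≤ ‖a • f (Function.update u j v)‖ + ‖b • f (Function.update u j w)‖ :=
                norm_add_le _ _
            _ ≤ a * K + b * K := by
                rw [norm_smul, norm_smul, Real.norm_of_nonneg ha, Real.norm_of_nonneg hb]
                gcongr
            _ = K := by rw [← add_mul, hab, one_mul]
      have := hsub (hu1 j (Finset.mem_insert_self _ _))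
      simpa using this
  exact key Finset.univ u (fun i _ => hu i) (by simp)

end Pool.Agent.Helper5.LpG
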