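import Mathlib

/-!
The two by two matrices.
-/

namespace Pool.Agent.Helper5.LpG

open Complex

/-- Rank one matrices of norm at most one. -/
def Rk (P Q : ℝ) : Set (Bool → Bool → ℂ) :=
  {U | ∃ x y : Bool → ℂ, ∑ b, ‖x b‖ ^ P ≤ 1 ∧ ∑ a, ‖y a‖ ^ Q ≤ 1 ∧ U = fun a b => y a * x b}

/-- The matrix with diagonal entries `1 / 2` and off-diagonal entries `t / 2`. -/
noncomputable def UU (t : ℂ) : Bool → Bool → ℂ := fun a b => if a = b then 1 / 2 else t / 2

theorem UU_real_mem {P Q : ℝ} (h : P.HolderConjugate Q) (σ : ℝ) (hσ : σ = 1 ∨ σ = -1) :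
    UU σ ∈ Rk P Q := by
  have hP : 0 < P := h.pos
  have hQ : 0 < Q := h.symm.pos
  have hc : (0 : ℝ) ≤ (1 / 2 : ℝ) ^ (1 / P) := by positivity
  have hd : (0 : ℝ) ≤ (1 / 2 : ℝ) ^ (1 / Q) := by positivity
  have hσ' : |σ| = 1 := by rcases hσ with rfl | rfl <;> simp
  have hσ2 : σ * σ = 1 := by rcases hσ with rfl | rfl <;> simp
  refine ⟨fun b => if b then (((1 / 2 : ℝ) ^ (1 / P) : ℝ) : ℂ) else ((σ * (1 / 2 : ℝ) ^ (1 / P) : ℝ) : ℂ),
    fun b => if b then (((1 / 2 : ℝ) ^ (1 / Q) : ℝ) : ℂ) else ((σ * (1 / 2 : ℝ) ^ (1 / Q) : ℝ) : ℂ),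
    ?_, ?_, ?_⟩
  · simp only [Fintype.sum_bool, if_true, Bool.false_eq_true, if_false, Complex.norm_real,
      Real.norm_eq_abs, abs_mul, hσ', one_mul, abs_of_nonneg hc]
    rw [← Real.rpow_mul (by norm_num), one_div_mul_cancel hP.ne', Real.rpow_one]
    norm_num
  · simp only [Fintype.sum_bool, if_true, Bool.false_eq_true, if_false, Complex.norm_real,
      Real.norm_eq_abs, abs_mul, hσ', one_mul, abs_of_nonneg hd]
    rw [← Real.rpow_mul (by norm_num), one_div_mul_cancel hQ.ne', Real.rpow_one]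
    norm_num
  · have hcd : (1 / 2 : ℝ) ^ (1 / Q) * (1 / 2 : ℝ) ^ (1 / P) = 1 / 2 := by
      rw [← Real.rpow_add (by norm_num)]
      have : 1 / Q + 1 / P = 1 := by
        have := h.inv_add_inv_eq_one
        rw [one_div, one_div]; linarith
      rw [this, Real.rpow_one]
    funext a b
    rcases a with _ | _ <;> rcases b with _ | _ <;> simp only [UU, if_true, Bool.false_eq_true, if_false,
      reduceCtorEq]
    · rw [← Complex.ofReal_mul]
      rw [show σ * (1 / 2 : ℝ) ^ (1 / Q) * (σ * (1 / 2 : ℝ) ^ (1 / P)) =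
        (σ * σ) * ((1 / 2 : ℝ) ^ (1 / Q) * (1 / 2 : ℝ) ^ (1 / P)) by ring, hcd, hσ2]
      norm_num
    · rw [← Complex.ofReal_mul]
      rw [show σ * (1 / 2 : ℝ) ^ (1 / Q) * ((1 / 2 : ℝ) ^ (1 / P)) =
        σ * ((1 / 2 : ℝ) ^ (1 / Q) * (1 / 2 : ℝ) ^ (1 / P)) by ring, hcd]
      push_cast; ring
    · rw [← Complex.ofReal_mul]
      rw [show (1 / 2 : ℝ) ^ (1 / Q) * (σ * (1 / 2 : ℝ) ^ (1 / P)) =
        σ * ((1 / 2 : ℝ) ^ (1 / Q) * (1 / 2 : ℝ) ^ (1 / P)) by ring, hcd]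
      push_cast; ring
    · rw [← Complex.ofReal_mul, hcd]
      norm_num

theorem UU_imag_mem {P Q : ℝ} (h : P.HolderConjugate Q) {a r : ℝ} (ha : 0 < a) (hr : 0 < r)
    (har : a ^ P + r ^ P = 1) (σ : ℝ) (hσ : σ = 1 ∨ σ = -1) :
    UU ((σ * (r * a ^ (P - 1) - a * r ^ (P - 1)) : ℝ) * I) ∈ convexHull ℝ (Rk P Q) := by
  have hσ' : |σ| = 1 := by rcases hσ with rfl | rfl <;> simp
  have hσ2 : σ * σ = 1 := by rcases hσ with rfl | rfl <;> simp
  have ha' : (0 : ℝ) ≤ a ^ (P - 1) := by positivity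
  have hr' : (0 : ℝ) ≤ r ^ (P - 1) := by positivity
  have hPQ : (P - 1) * Q = P := h.sub_one_mul_conj
  have haa : a ^ (P - 1) * a = a ^ P := by
    rw [← Real.rpow_add_one ha.ne']; ring_nf
  have hrr : r ^ (P - 1) * r = r ^ P := by
    rw [← Real.rpow_add_one hr.ne']; ring_nf
  have key : ∀ c : Bool,
      (fun s t : Bool => (if s = c then ((a ^ (P - 1) : ℝ) : ℂ) else ((-σ * r ^ (P - 1) : ℝ) : ℂ) * I) *
        (if t = c then ((a : ℝ) : ℂ) else ((σ * r : ℝ) : ℂ) * I)) ∈ Rk P Q := by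
    intro c
    refine ⟨fun t => (if t = c then ((a : ℝ) : ℂ) else ((σ * r : ℝ) : ℂ) * I),
      fun s => (if s = c then ((a ^ (P - 1) : ℝ) : ℂ) else ((-σ * r ^ (P - 1) : ℝ) : ℂ) * I), ?_, ?_, rfl⟩
    · have e1 : ‖((a : ℝ) : ℂ)‖ ^ P = a ^ P := by
        rw [Complex.norm_real, Real.norm_eq_abs, abs_of_pos ha]
      have e2 : ‖((σ * r : ℝ) : ℂ) * I‖ ^ P = r ^ P := by
        rw [norm_mul, Complex.norm_I, mul_one, Complex.norm_real, Real.norm_eq_abs, abs_mul, hσ',
          one_mul, abs_of_pos hr]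
      rcases c with _ | _
      · simp only [Fintype.sum_bool, if_true, reduceCtorEq, if_false, e1, e2]
        linarith
      · simp only [Fintype.sum_bool, if_true, reduceCtorEq, if_false, e1, e2]
        linarith
    · have e1 : ‖((a ^ (P - 1) : ℝ) : ℂ)‖ ^ Q = a ^ P := by
        rw [Complex.norm_real, Real.norm_eq_abs, abs_of_nonneg ha', ← Real.rpow_mul ha.le, hPQ]
      have e2 : ‖((-σ * r ^ (P - 1) : ℝ) : ℂ) * I‖ ^ Q = r ^ P := by
        rw [norm_mul, Complex.norm_I, mul_one, Complex.norm_real, Real.norm_eq_abs, abs_mul, abs_neg,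
          hσ', one_mul, abs_of_nonneg hr', ← Real.rpow_mul hr.le, hPQ]
      rcases c with _ | _
      · simp only [Fintype.sum_bool, if_true, reduceCtorEq, if_false, e1, e2]
        linarith
      · simp only [Fintype.sum_bool, if_true, reduceCtorEq, if_false, e1, e2]
        linarith
  have h1 := subset_convexHull ℝ _ (key true)
  have h2 := subset_convexHull ℝ _ (key false)
  have h3 := (convex_convexHull ℝ (Rk P Q)) h1 h2 (a := 1 / 2) (b := 1 / 2) (by norm_num)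
    (by norm_num) (by norm_num)
  convert h3 using 1
  have haaC : ((a ^ (P - 1) : ℝ) : ℂ) * ((a : ℝ) : ℂ) = ((a ^ P : ℝ) : ℂ) := by
    rw [← Complex.ofReal_mul, haa]
  have hrrC : ((-σ * r ^ (P - 1) : ℝ) : ℂ) * I * (((σ * r : ℝ) : ℂ) * I) = ((r ^ P : ℝ) : ℂ) := by
    rw [show ((-σ * r ^ (P - 1) : ℝ) : ℂ) * I * (((σ * r : ℝ) : ℂ) * I) =
      ((-σ * r ^ (P - 1) * (σ * r) : ℝ) : ℂ) * (I * I) by push_cast; ring, Complex.I_mul_I]
    rw [show -σ * r ^ (P - 1) * (σ * r) = - (r ^ P) by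
      rw [← hrr]; linear_combination (-(r ^ (P - 1) * r)) * hσ2]
    push_cast; ring
  have hsum : ((a ^ P : ℝ) : ℂ) + ((r ^ P : ℝ) : ℂ) = 1 := by
    rw [← Complex.ofReal_add, har]; norm_num
  funext s t
  rcases s with _ | _ <;> rcases t with _ | _ <;>
    simp only [UU, if_true, reduceCtorEq, if_false, Pi.add_apply, Pi.smul_apply,
      Complex.real_smul, haaC, hrrC]
  · push_cast at hsum ⊢; linear_combination (-(1 / 2 : ℂ)) * hsum
  · push_cast; ring
  · push_cast; ring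
  · push_cast at hsum ⊢; linear_combination (-(1 / 2 : ℂ)) * hsum

theorem exists_UU_mem {P Q : ℝ} (h : P.HolderConjugate Q) (hP : P ≠ 2) :
    ∃ t₀ : ℝ, 0 < t₀ ∧ ∀ t : ℂ, ‖t‖ ≤ t₀ → UU t ∈ convexHull ℝ (Rk P Q) := by
  have hP0 : 0 < P := h.pos
  set a : ℝ := (2 / 3 : ℝ) ^ (1 / P) with ha
  set r : ℝ := (1 / 3 : ℝ) ^ (1 / P) with hr
  have ha0 : 0 < a := by positivity
  have hr0 : 0 < r := by positivity
  have haP : a ^ P = 2 / 3 := by
    rw [ha, ← Real.rpow_mul (by norm_num), one_div_mul_cancel hP0.ne', Real.rpow_one]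
  have hrP : r ^ P = 1 / 3 := by
    rw [hr, ← Real.rpow_mul (by norm_num), one_div_mul_cancel hP0.ne', Real.rpow_one]
  have har : a ≠ r := by
    intro h1
    rw [h1, hrP] at haP
    norm_num at haP
  set ρ : ℝ := r * a ^ (P - 1) - a * r ^ (P - 1) with hρ
  have hρ0 : ρ ≠ 0 := by
    intro h0
    have e1 : a ^ (P - 1) = a ^ (P - 2) * a := by
      rw [← Real.rpow_add_one ha0.ne']; ring_nf
    have e2 : r ^ (P - 1) = r ^ (P - 2) * r := by
      rw [← Real.rpow_add_one hr0.ne']; ring_nf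
    have e3 : a ^ (P - 2) = r ^ (P - 2) := by
      have : (a * r) * (a ^ (P - 2) - r ^ (P - 2)) = 0 := by
        rw [hρ, e1, e2] at h0
        linear_combination h0
      rcases mul_eq_zero.1 this with h | h
      · exact absurd h (by positivity)
      · linarith
    exact har (Real.rpow_left_injOn (sub_ne_zero.2 hP) ha0.le hr0.le e3)
  have hρ1 : 0 < |ρ| := abs_pos.2 hρ0
  refine ⟨min (1 / 2) (|ρ| / 2), by positivity, fun t ht => ?_⟩
  have hre : |t.re| ≤ 1 / 2 := (Complex.abs_re_le_norm t).trans (ht.trans (min_le_left _ _))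
  have him : |t.im| ≤ |ρ| / 2 := (Complex.abs_im_le_norm t).trans (ht.trans (min_le_right _ _))
  have hconv := convex_convexHull ℝ (Rk P Q)
  -- real points
  have hR : ∀ s : ℝ, |s| ≤ 1 → UU s ∈ convexHull ℝ (Rk P Q) := by
    intro s hs
    have h1 := subset_convexHull ℝ _ (UU_real_mem h 1 (Or.inl rfl))
    have h2 := subset_convexHull ℝ _ (UU_real_mem h (-1) (Or.inr rfl))
    have hs' := abs_le.1 hs
    have h3 := hconv h1 h2 (a := (1 + s) / 2) (b := (1 - s) / 2) (by linarith) (by linarith)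
      (by ring)
    convert h3 using 1
    funext x y
    simp only [UU, Pi.add_apply, Pi.smul_apply, Complex.real_smul]
    split_ifs <;> push_cast <;> ring
  have hI : ∀ s : ℝ, |s| ≤ 1 → UU ((s * ρ : ℝ) * I) ∈ convexHull ℝ (Rk P Q) := by
    intro s hs
    have h1 := UU_imag_mem h ha0 hr0 (by rw [haP, hrP]; norm_num) 1 (Or.inl rfl)
    have h2 := UU_imag_mem h ha0 hr0 (by rw [haP, hrP]; norm_num) (-1) (Or.inr rfl)
    rw [← hρ] at h1 h2
    have hs' := abs_le.1 hs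
    have h3 := hconv h1 h2 (a := (1 + s) / 2) (b := (1 - s) / 2) (by linarith) (by linarith)
      (by ring)
    convert h3 using 1
    funext x y
    simp only [UU, Pi.add_apply, Pi.smul_apply, Complex.real_smul]
    split_ifs <;> push_cast <;> ring
  have h1 := hR (2 * t.re) (by rw [abs_mul, abs_two]; linarith)
  have h2 := hI (2 * t.im / ρ) (by
    rw [abs_div, abs_mul, abs_two, div_le_one hρ1]; linarith)
  rw [div_mul_cancel₀ _ hρ0] at h2
  have h3 := hconv h1 h2 (a := 1 / 2) (b := 1 / 2) (by norm_num) (by norm_num) (by norm_num)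
  convert h3 using 1
  funext x y
  simp only [UU, Pi.add_apply, Pi.smul_apply, Complex.real_smul]
  split_ifs
  · push_cast; ring
  · conv_lhs => rw [← Complex.re_add_im t]
    push_cast; ring

end Pool.Agent.Helper5.LpG
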