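import Pool.Agent.Helper5.LpG.Hull
import Pool.Agent.Helper5.LpG.Two

/-!
The main inequality for finite matrices.
-/

namespace Pool.Agent.Helper5.LpG

open Finset

variable {k : ℕ}

/-- Evaluation of a two by two matrix at an entry. -/
def evL (a b : Bool) : (Bool → Bool → ℂ) →ₗ[ℝ] ℂ where
  toFun U := U a b
  map_add' _ _ := rfl
  map_smul' _ _ := rfl

/-- The multilinear form of a matrix. -/
noncomputable def FF (N : (Fin k → Bool) → (Fin k → Bool) → ℂ) :
    MultilinearMap ℝ (fun _ : Fin k => (Bool → Bool → ℂ)) ℂ :=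
  ∑ a, ∑ b, N a b • (MultilinearMap.mkPiAlgebra ℝ (Fin k) ℂ).compLinearMap
    (fun i => evL (a i) (b i))

theorem FF_apply (N : (Fin k → Bool) → (Fin k → Bool) → ℂ) (U : Fin k → (Bool → Bool → ℂ)) :
    FF N U = ∑ a, ∑ b, N a b * ∏ i, U i (a i) (b i) := by
  simp [FF, evL]

/-- Flip the `i`-th coordinate. -/
def flip (i : Fin k) (a : Fin k → Bool) : Fin k → Bool := Function.update a i (!(a i))

theorem flip_flip (i : Fin k) (a : Fin k → Bool) : flip i (flip i a) = a := by
  funext j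
  by_cases h : j = i
  · subst h; simp [flip]
  · simp [flip, h]

/-- The averages of the shifted diagonals. -/
noncomputable def Dg (N : (Fin k → Bool) → (Fin k → Bool) → ℂ) (i : Fin k) : ℂ :=
  (1 / 2) ^ k * ∑ a, N a (flip i a)

theorem prod_rank (P : ℝ) (x : Fin k → Bool → ℂ) (hx : ∀ i, ∑ b, ‖x i b‖ ^ P ≤ 1) :
    ∑ b : Fin k → Bool, ‖∏ i, x i (b i)‖ ^ P ≤ 1 := by
  have h1 : ∑ b : Fin k → Bool, ‖∏ i, x i (b i)‖ ^ P = ∏ i, ∑ b, ‖x i b‖ ^ P := by
    rw [Finset.prod_univ_sum, Fintype.piFinset_univ]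
    refine Finset.sum_congr rfl fun b _ => ?_
    rw [norm_prod, ← Real.finsetProd_rpow _ _ (fun i _ => norm_nonneg _)]
  rw [h1]
  exact Finset.prod_le_one (fun i _ => Finset.sum_nonneg fun b _ => by positivity) fun i _ => hx i

theorem FF_le {P Q K : ℝ} (N : (Fin k → Bool) → (Fin k → Bool) → ℂ)
    (h : ∀ X Y : (Fin k → Bool) → ℂ, ∑ b, ‖X b‖ ^ P ≤ 1 → ∑ a, ‖Y a‖ ^ Q ≤ 1 →
      ‖∑ a, ∑ b, N a b * (Y a * X b)‖ ≤ K)
    (U : Fin k → (Bool → Bool → ℂ)) (hU : ∀ i, U i ∈ convexHull ℝ (Rk P Q)) :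
    ‖∑ a, ∑ b, N a b * ∏ i, U i (a i) (b i)‖ ≤ K := by
  rw [← FF_apply]
  refine norm_le_convexHull (FF N) (Rk P Q) K ?_ U hU
  intro V hV
  choose x y hx hy hxy using hV
  rw [FF_apply]
  have := h (fun b => ∏ i, x i (b i)) (fun a => ∏ i, y i (a i)) (prod_rank P x hx) (prod_rank Q y hy)
  convert this using 6 with a _ b _
  rw [← Finset.prod_mul_distrib]
  exact Finset.prod_congr rfl fun i _ => by rw [hxy i]

theorem hasDerivAt_FF (N : (Fin k → Bool) → (Fin k → Bool) → ℂ) (ε : Fin k → ℂ) :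
    HasDerivAt (fun z : ℂ => ∑ a, ∑ b, N a b * ∏ i, UU (ε i * z) (a i) (b i))
      (∑ i, ε i * Dg N i) 0 := by
  have h1 : ∀ a b : Fin k → Bool, ∀ i : Fin k,
      HasDerivAt (fun z : ℂ => UU (ε i * z) (a i) (b i)) (if a i = b i then 0 else ε i / 2) 0 := by
    intro a b i
    unfold UU
    split_ifs
    · exact hasDerivAt_const _ _
    · have := ((hasDerivAt_id (0 : ℂ)).const_mul (ε i)).div_const 2
      simpa using this
  have h2 : ∀ a b : Fin k → Bool,
      HasDerivAt (fun z : ℂ => ∏ i, UU (ε i * z) (a i) (b i))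
        (∑ i, (∏ j ∈ univ.erase i, UU (ε j * 0) (a j) (b j)) * (if a i = b i then 0 else ε i / 2)) 0 := by
    intro a b
    have := HasDerivAt.fun_finsetProd (u := (univ : Finset (Fin k))) (fun i _ => h1 a b i)
    simpa [smul_eq_mul] using this
  have h3 : HasDerivAt (fun z : ℂ => ∑ a, ∑ b, N a b * ∏ i, UU (ε i * z) (a i) (b i))
      (∑ a, ∑ b, N a b * ∑ i, (∏ j ∈ univ.erase i, UU (ε j * 0) (a j) (b j)) *
        (if a i = b i then 0 else ε i / 2)) 0 := by
    refine HasDerivAt.fun_sum fun a _ => HasDerivAt.fun_sum fun b _ => ?_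
    exact (h2 a b).const_mul (N a b)
  convert h3 using 1
  simp only [Finset.mul_sum]
  have h4 : ∀ a : Fin k → Bool, ∑ b, ∑ i, N a b * ((∏ j ∈ univ.erase i, UU (ε j * 0) (a j) (b j)) *
        (if a i = b i then 0 else ε i / 2)) = ∑ i, N a (flip i a) * ((1 / 2) ^ k * ε i) := by
    intro a
    rw [Finset.sum_comm]
    refine Finset.sum_congr rfl fun i _ => ?_
    rw [Finset.sum_eq_single (flip i a)]
    · congr 1
      have e1 : ¬ a i = flip i a i := by simp [flip]
      rw [if_neg e1]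
      have e2 : ∏ j ∈ univ.erase i, UU (ε j * 0) (a j) (flip i a j) = (1 / 2) ^ (k - 1) := by
        rw [Finset.prod_congr rfl (g := fun _ => (1 / 2 : ℂ)), Finset.prod_const,
          Finset.card_erase_of_mem (Finset.mem_univ i), Finset.card_univ, Fintype.card_fin]
        intro j hj
        have : j ≠ i := Finset.ne_of_mem_erase hj
        simp [UU, flip, this]
      rw [e2]
      have hk : k = (k - 1) + 1 := by have := i.2; omega
      conv_rhs => rw [hk, pow_succ]
      ring
    · intro b _ hb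
      by_cases hi : a i = b i
      · rw [if_pos hi, mul_zero, mul_zero]
      · have : ∃ j, j ≠ i ∧ a j ≠ b j := by
          by_contra hcon
          push Not at hcon
          apply hb
          funext j
          by_cases hj : j = i
          · subst hj
            simp only [flip, Function.update_self]
            cases h5 : a j <;> cases h6 : b j <;> simp_all
          · rw [flip, Function.update_of_ne hj]
            exact (hcon j hj).symm
        obtain ⟨j, hj, hab⟩ := this
        rw [Finset.prod_eq_zero (Finset.mem_erase.2 ⟨hj, Finset.mem_univ j⟩)]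
        · simp
        · simp [UU, hab]
    · intro h; exact absurd (Finset.mem_univ _) h
  rw [Finset.sum_congr rfl fun a _ => h4 a, Finset.sum_comm]
  refine Finset.sum_congr rfl fun i _ => ?_
  simp only [Dg, Finset.mul_sum]
  exact Finset.sum_congr rfl fun a _ => by ring

theorem main_ineq {P Q K t₀ : ℝ} (ht₀ : 0 < t₀)
    (ht : ∀ t : ℂ, ‖t‖ ≤ t₀ → UU t ∈ convexHull ℝ (Rk P Q))
    (N : (Fin k → Bool) → (Fin k → Bool) → ℂ)
    (h : ∀ X Y : (Fin k → Bool) → ℂ, ∑ b, ‖X b‖ ^ P ≤ 1 → ∑ a, ‖Y a‖ ^ Q ≤ 1 →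
      ‖∑ a, ∑ b, N a b * (Y a * X b)‖ ≤ K) :
    ∑ i, ‖Dg N i‖ ≤ K / t₀ := by
  set ε : Fin k → ℂ := fun i => if Dg N i = 0 then 0 else (starRingEnd ℂ (Dg N i)) / ‖Dg N i‖ with hε
  have hε1 : ∀ i, ‖ε i‖ ≤ 1 := by
    intro i
    by_cases h0 : Dg N i = 0
    · simp [hε, h0]
    · simp only [hε, h0, if_false, norm_div, RCLike.norm_conj, Complex.norm_real, norm_norm]
      rw [div_self (norm_ne_zero_iff.2 h0)]
  have hε2 : ∀ i, ε i * Dg N i = (‖Dg N i‖ : ℂ) := by
    intro i
    by_cases h0 : Dg N i = 0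
    · simp [h0]
    · have hn : (‖Dg N i‖ : ℂ) ≠ 0 := by exact_mod_cast norm_ne_zero_iff.2 h0
      simp only [hε, h0, if_false]
      rw [div_mul_eq_mul_div, div_eq_iff hn, mul_comm, Complex.mul_conj, Complex.normSq_eq_norm_sq]
      push_cast; ring
  have hd := hasDerivAt_FF N ε
  have hdiff : Differentiable ℂ
      (fun z : ℂ => ∑ a, ∑ b, N a b * ∏ i, UU (ε i * z) (a i) (b i)) := by
    refine Differentiable.fun_sum fun a _ => Differentiable.fun_sum fun b _ => ?_
    refine Differentiable.const_mul ?_ _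
    refine Differentiable.fun_finsetProd fun i _ => ?_
    unfold UU
    split_ifs
    · exact differentiable_const _
    · exact (differentiable_id.const_mul _).div_const _
  have hC := Complex.norm_deriv_le_of_forall_mem_sphere_norm_le (c := 0) (R := t₀) (C := K) ht₀
    hdiff.diffContOnCl (fun z hz => by
      refine FF_le N h (fun i => UU (ε i * z)) fun i => ht _ ?_
      rw [mem_sphere_zero_iff_norm] at hz
      rw [norm_mul, hz]
      have := hε1 i
      nlinarith)
  rw [hd.deriv] at hC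
  rw [Finset.sum_congr rfl fun i _ => hε2 i, ← Complex.ofReal_sum, Complex.norm_real,
    Real.norm_of_nonneg (Finset.sum_nonneg fun i _ => norm_nonneg _)] at hC
  exact hC

end Pool.Agent.Helper5.LpG
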