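import Pool.Agent.Helper5.LpG.FA
import Pool.Agent.Helper5.LpG.Tensor

/-!
Operators on `ℓ^p`.
-/

namespace Pool.Agent.Helper5.LpG

open Filter Topology Finset
open scoped ENNReal

variable {𝕜 : Type*} [RCLike 𝕜] {p : ℝ≥0∞} [Fact (1 ≤ p)]

/-- The isometric embedding into the complex numbers. -/
theorem norm_map (z : 𝕜) : ‖RCLike.map 𝕜 ℂ z‖ = ‖z‖ := by
  have h : ‖RCLike.map 𝕜 ℂ z‖ ^ 2 = ‖z‖ ^ 2 := by
    rw [RCLike.norm_sq_eq_def (z := z), RCLike.norm_sq_eq_def (z := RCLike.map 𝕜 ℂ z)]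
    simp
  exact (sq_eq_sq₀ (norm_nonneg _) (norm_nonneg _)).1 h

instance : Infinite (Σ k : ℕ, (Fin k → Bool)) :=
  Infinite.of_injective (fun k => ⟨k, fun _ => false⟩) fun a b h => by
    simpa using congrArg Sigma.fst h

/-- The blocks. -/
noncomputable def eqv : (Σ k : ℕ, (Fin k → Bool)) ≃ ℕ :=
  Classical.choice nonempty_equiv_of_countable

/-- The `k`-th block. -/
noncomputable def blk (k : ℕ) (a : Fin k → Bool) : ℕ := eqv ⟨k, a⟩

theorem blk_injective (k : ℕ) : Function.Injective (blk k) := fun a b h => by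
  have := eqv.injective h
  simpa using this

/-- The entries of an operator. -/
noncomputable def ent (T : lp (fun _ : ℕ => 𝕜) p →L[𝕜] lp (fun _ : ℕ => 𝕜) p) (m n : ℕ) : 𝕜 :=
  (T (lp.single p n 1)) m

theorem norm_ent_le (T : lp (fun _ : ℕ => 𝕜) p →L[𝕜] lp (fun _ : ℕ => 𝕜) p) (m n : ℕ) :
    ‖ent T m n‖ ≤ ‖T‖ := by
  have hp : 0 < p := zero_lt_one.trans_le Fact.out
  calc ‖ent T m n‖ ≤ ‖T (lp.single p n 1)‖ := lp.norm_apply_le_norm hp.ne' _ _
    _ ≤ ‖T‖ * ‖(lp.single p n 1 : lp (fun _ : ℕ => 𝕜) p)‖ := T.le_opNorm _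
    _ = ‖T‖ := by rw [lp.norm_single hp]; simp

/-- The vector with real coefficients on the block. -/
noncomputable def vec (p : ℝ≥0∞) [Fact (1 ≤ p)] (𝕜 : Type*) [RCLike 𝕜] (k : ℕ)
    (v : (Fin k → Bool) → ℝ) : lp (fun _ : ℕ => 𝕜) p :=
  ∑ b, lp.single p (blk k b) (v b : 𝕜)

theorem norm_vec_le (hp : 0 < p.toReal) (k : ℕ) (v : (Fin k → Bool) → ℝ)
    (hv : ∑ b, |v b| ^ p.toReal ≤ 1) : ‖vec p 𝕜 k v‖ ≤ 1 := by
  have h1 : vec p 𝕜 k v = ∑ i ∈ univ.map ⟨blk k, blk_injective k⟩,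
      lp.single p i (Function.extend (blk k) (fun b => (v b : 𝕜)) 0 i) := by
    rw [Finset.sum_map, vec]
    refine Finset.sum_congr rfl fun b _ => ?_
    rw [Function.Embedding.coeFn_mk, (blk_injective k).extend_apply]
  have h2 := lp.norm_sum_single (E := fun _ : ℕ => 𝕜) hp
    (Function.extend (blk k) (fun b => (v b : 𝕜)) 0) (univ.map ⟨blk k, blk_injective k⟩)
  rw [← h1, Finset.sum_map] at h2
  have h3 : ‖vec p 𝕜 k v‖ ^ p.toReal ≤ 1 := by
    rw [h2]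
    refine le_trans (le_of_eq ?_) hv
    refine Finset.sum_congr rfl fun b _ => ?_
    rw [Function.Embedding.coeFn_mk, (blk_injective k).extend_apply, RCLike.norm_ofReal]
  by_contra hcon
  push Not at hcon
  exact absurd h3 (not_le.2 (Real.one_lt_rpow hcon hp))

theorem apply_vec (T : lp (fun _ : ℕ => 𝕜) p →L[𝕜] lp (fun _ : ℕ => 𝕜) p) (k : ℕ)
    (v : (Fin k → Bool) → ℝ) (m : ℕ) :
    (T (vec p 𝕜 k v)) m = ∑ b, v b • ent T m (blk k b) := by
  rw [vec, map_sum, lp.coeFn_sum, Finset.sum_apply]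
  refine Finset.sum_congr rfl fun b _ => ?_
  have : (lp.single p (blk k b) (v b : 𝕜) : lp (fun _ : ℕ => 𝕜) p) =
      (v b : 𝕜) • lp.single p (blk k b) (1 : 𝕜) := by
    rw [← lp.single_smul]; simp
  rw [this, map_smul, lp.coeFn_smul, Pi.smul_apply, ent, RCLike.real_smul_eq_coe_smul (K := 𝕜)]

theorem holder_vec {q : ℝ} (hpq : p.toReal.HolderConjugate q)
    (T : lp (fun _ : ℕ => 𝕜) p →L[𝕜] lp (fun _ : ℕ => 𝕜) p) (k : ℕ)
    (v : (Fin k → Bool) → ℝ) (hv : ∑ b, |v b| ^ p.toReal ≤ 1)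
    (Y : (Fin k → Bool) → ℂ) (hY : ∑ a, ‖Y a‖ ^ q ≤ 1) :
    ‖∑ a, Y a * RCLike.map 𝕜 ℂ ((T (vec p 𝕜 k v)) (blk k a))‖ ≤ ‖T‖ := by
  have hp0 : 0 < p.toReal := hpq.pos
  set x := T (vec p 𝕜 k v) with hx
  have hxT : ‖x‖ ≤ ‖T‖ := by
    calc ‖x‖ ≤ ‖T‖ * ‖vec p 𝕜 k v‖ := T.le_opNorm _
      _ ≤ ‖T‖ * 1 := by gcongr; exact norm_vec_le hp0 k v hv
      _ = ‖T‖ := mul_one _
  have h1 : ∑ a, ‖x (blk k a)‖ ^ p.toReal ≤ ‖x‖ ^ p.toReal := by
    have := lp.sum_rpow_le_norm_rpow hp0 x (univ.map ⟨blk k, blk_injective k⟩)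
    rwa [Finset.sum_map] at this
  calc ‖∑ a, Y a * RCLike.map 𝕜 ℂ (x (blk k a))‖
      ≤ ∑ a, ‖Y a‖ * ‖x (blk k a)‖ := by
        refine (norm_sum_le _ _).trans (le_of_eq ?_)
        refine Finset.sum_congr rfl fun a _ => ?_
        rw [norm_mul, norm_map]
    _ ≤ (∑ a, |‖Y a‖| ^ q) ^ (1 / q) * (∑ a, |‖x (blk k a)‖| ^ p.toReal) ^ (1 / p.toReal) :=
        Real.inner_le_Lp_mul_Lq _ _ _ hpq.symm
    _ ≤ 1 * ‖x‖ := by
        simp only [abs_norm]
        refine mul_le_mul ?_ ?_ (by positivity) zero_le_one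
        · exact Real.rpow_le_one (Finset.sum_nonneg fun a _ => by positivity) hY
            (by have := hpq.symm.pos; positivity)
        · calc (∑ a, ‖x (blk k a)‖ ^ p.toReal) ^ (1 / p.toReal)
              ≤ (‖x‖ ^ p.toReal) ^ (1 / p.toReal) := by
                refine Real.rpow_le_rpow (Finset.sum_nonneg fun a _ => by positivity) h1
                  (by positivity)
            _ = ‖x‖ := by
                rw [← Real.rpow_mul (norm_nonneg _), mul_one_div_cancel hp0.ne', Real.rpow_one]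
    _ ≤ ‖T‖ := by rw [one_mul]; exact hxT

/-- The complex matrix of the block. -/
noncomputable def NN (T : lp (fun _ : ℕ => 𝕜) p →L[𝕜] lp (fun _ : ℕ => 𝕜) p) (k : ℕ)
    (a b : Fin k → Bool) : ℂ := RCLike.map 𝕜 ℂ (ent T (blk k a) (blk k b))

theorem NN_bound {q : ℝ} (hpq : p.toReal.HolderConjugate q)
    (T : lp (fun _ : ℕ => 𝕜) p →L[𝕜] lp (fun _ : ℕ => 𝕜) p) (k : ℕ)
    (X Y : (Fin k → Bool) → ℂ) (hX : ∑ b, ‖X b‖ ^ p.toReal ≤ 1) (hY : ∑ a, ‖Y a‖ ^ q ≤ 1) :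
    ‖∑ a, ∑ b, NN T k a b * (Y a * X b)‖ ≤ 2 * ‖T‖ := by
  have hp0 : 0 < p.toReal := hpq.pos
  have hc : ∀ (v : (Fin k → Bool) → ℝ) (a : Fin k → Bool),
      RCLike.map 𝕜 ℂ ((T (vec p 𝕜 k v)) (blk k a)) = ∑ b, (v b : ℂ) * NN T k a b := by
    intro v a
    rw [apply_vec, map_sum]
    refine Finset.sum_congr rfl fun b _ => ?_
    rw [map_smul, NN, Complex.real_smul]
  have hre : ∑ b, |(X b).re| ^ p.toReal ≤ 1 := by
    refine le_trans (Finset.sum_le_sum fun b _ => ?_) hX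
    exact Real.rpow_le_rpow (abs_nonneg _) (Complex.abs_re_le_norm _) hp0.le
  have him : ∑ b, |(X b).im| ^ p.toReal ≤ 1 := by
    refine le_trans (Finset.sum_le_sum fun b _ => ?_) hX
    exact Real.rpow_le_rpow (abs_nonneg _) (Complex.abs_im_le_norm _) hp0.le
  have h1 := holder_vec hpq T k (fun b => (X b).re) hre Y hY
  have h2 := holder_vec hpq T k (fun b => (X b).im) him Y hY
  have h3 : ∑ a, ∑ b, NN T k a b * (Y a * X b) =
      ∑ a, Y a * RCLike.map 𝕜 ℂ ((T (vec p 𝕜 k (fun b => (X b).re))) (blk k a)) +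
      Complex.I * ∑ a, Y a * RCLike.map 𝕜 ℂ ((T (vec p 𝕜 k (fun b => (X b).im))) (blk k a)) := by
    rw [Finset.mul_sum, ← Finset.sum_add_distrib]
    refine Finset.sum_congr rfl fun a _ => ?_
    rw [hc, hc, Finset.mul_sum, Finset.mul_sum, Finset.mul_sum, ← Finset.sum_add_distrib]
    refine Finset.sum_congr rfl fun b _ => ?_
    conv_lhs => rw [← Complex.re_add_im (X b)]
    ring
  rw [h3]
  calc _ ≤ ‖∑ a, Y a * RCLike.map 𝕜 ℂ ((T (vec p 𝕜 k (fun b => (X b).re))) (blk k a))‖ +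
        ‖Complex.I * ∑ a, Y a * RCLike.map 𝕜 ℂ ((T (vec p 𝕜 k (fun b => (X b).im))) (blk k a))‖ :=
        norm_add_le _ _
    _ ≤ ‖T‖ + ‖T‖ := by
        rw [norm_mul, Complex.norm_I, one_mul]
        exact add_le_add h1 h2
    _ = 2 * ‖T‖ := (two_mul _).symm

/-- The averages of the shifted diagonals. -/
noncomputable def dd (k i : ℕ) (T : lp (fun _ : ℕ => 𝕜) p →L[𝕜] lp (fun _ : ℕ => 𝕜) p) : 𝕜 :=
  if h : i < k then
    ((((1 / 2 : ℝ) ^ k : ℝ)) : 𝕜) * ∑ a, ent T (blk k a) (blk k (flip ⟨i, h⟩ a))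
  else 0

theorem norm_dd_le (k i : ℕ) (T : lp (fun _ : ℕ => 𝕜) p →L[𝕜] lp (fun _ : ℕ => 𝕜) p) :
    ‖dd k i T‖ ≤ 1 * ‖T‖ := by
  unfold dd
  split_ifs with h
  · rw [norm_mul, RCLike.norm_ofReal, abs_of_nonneg (by positivity)]
    calc (1 / 2 : ℝ) ^ k * ‖∑ a, ent T (blk k a) (blk k (flip ⟨i, h⟩ a))‖
        ≤ (1 / 2 : ℝ) ^ k * ∑ a : Fin k → Bool, ‖T‖ := by
          gcongr
          exact norm_sum_le_of_le _ fun a _ => norm_ent_le T _ _
      _ = 1 * ‖T‖ := by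
          rw [Finset.sum_const, Finset.card_univ, Fintype.card_fun, Fintype.card_bool,
            Fintype.card_fin, nsmul_eq_mul, ← mul_assoc]
          push_cast
          rw [← mul_pow]; norm_num
  · rw [norm_zero]; positivity

/-- The functionals. -/
noncomputable def DD (p : ℝ≥0∞) [Fact (1 ≤ p)] (𝕜 : Type*) [RCLike 𝕜] (k i : ℕ) :
    StrongDual 𝕜 (lp (fun _ : ℕ => 𝕜) p →L[𝕜] lp (fun _ : ℕ => 𝕜) p) :=
  LinearMap.mkContinuous
    { toFun := dd k i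
      map_add' := fun S T => by
        unfold dd
        split_ifs
        · rw [← mul_add, ← Finset.sum_add_distrib]
          congr 1
        · simp
      map_smul' := fun c T => by
        unfold dd
        split_ifs
        · rw [RingHom.id_apply, smul_eq_mul, mul_left_comm, Finset.mul_sum (a := c)]
          congr 1
        · simp } 1 (norm_dd_le k i)

theorem norm_DD_le (k i : ℕ) : ‖DD p 𝕜 k i‖ ≤ 1 :=
  LinearMap.mkContinuous_norm_le _ zero_le_one _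

theorem DD_apply (k i : ℕ) (T : lp (fun _ : ℕ => 𝕜) p →L[𝕜] lp (fun _ : ℕ => 𝕜) p) :
    DD p 𝕜 k i T = dd k i T := rfl

theorem norm_dd (k : ℕ) (i : Fin k) (T : lp (fun _ : ℕ => 𝕜) p →L[𝕜] lp (fun _ : ℕ => 𝕜) p) :
    ‖dd k i T‖ = ‖Dg (NN T k) i‖ := by
  rw [← norm_map (dd k i T)]
  congr 1
  unfold dd
  rw [dif_pos i.2, ← RCLike.real_smul_eq_coe_mul, map_smul, map_sum, Dg, Complex.real_smul]
  push_cast
  rfl

theorem exists_bound (hp1 : 1 < p) (hp2 : p ≠ 2) (hp3 : p ≠ ∞) : ∃ C : ℝ, ∀ (k n : ℕ)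
    (T : lp (fun _ : ℕ => 𝕜) p →L[𝕜] lp (fun _ : ℕ => 𝕜) p), n ≤ k →
      ∑ i ∈ range n, ‖DD p 𝕜 k i T‖ ≤ C * ‖T‖ := by
  have hp : 1 < p.toReal := by
    rw [← ENNReal.toReal_one]
    exact (ENNReal.toReal_lt_toReal ENNReal.one_ne_top hp3).2 hp1
  have hpq := Real.HolderConjugate.conjExponent hp
  have hP2 : p.toReal ≠ 2 := by
    intro h
    apply hp2
    rw [← ENNReal.ofReal_toReal hp3, h]
    norm_num
  obtain ⟨t₀, ht₀, ht⟩ := exists_UU_mem hpq hP2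
  refine ⟨2 / t₀, fun k n T hn => ?_⟩
  calc ∑ i ∈ range n, ‖DD p 𝕜 k i T‖ ≤ ∑ i ∈ range k, ‖DD p 𝕜 k i T‖ :=
        Finset.sum_le_sum_of_subset_of_nonneg (Finset.range_mono hn) fun i _ _ => norm_nonneg _
    _ = ∑ i : Fin k, ‖Dg (NN T k) i‖ := by
        rw [Finset.sum_range]
        exact Finset.sum_congr rfl fun i _ => by rw [DD_apply, norm_dd]
    _ ≤ 2 * ‖T‖ / t₀ := main_ineq ht₀ ht (NN T k) fun X Y hX hY => NN_bound hpq T k X Y hX hY
    _ = 2 / t₀ * ‖T‖ := by ring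

/-- The flip as a permutation. -/
def flipE {k : ℕ} (i : Fin k) : Equiv.Perm (Fin k → Bool) where
  toFun := flip i
  invFun := flip i
  left_inv := flip_flip i
  right_inv := flip_flip i

/-- The permutation of the basis. -/
noncomputable def perm (i : ℕ) : Equiv.Perm ℕ :=
  eqv.symm.trans ((Equiv.sigmaCongrRight fun k =>
    if h : i < k then flipE ⟨i, h⟩ else Equiv.refl _).trans eqv)

theorem perm_blk (i k : ℕ) (h : i < k) (a : Fin k → Bool) :
    perm i (blk k a) = blk k (flip ⟨i, h⟩ a) := by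
  simp [perm, blk, h, flipE]

/-- The operator of a permutation. -/
noncomputable def permCLM (hp : 0 < p.toReal) (𝕜 : Type*) [RCLike 𝕜] (σ : Equiv.Perm ℕ) :
    lp (fun _ : ℕ => 𝕜) p →L[𝕜] lp (fun _ : ℕ => 𝕜) p :=
  LinearMap.mkContinuous
    { toFun := fun x => ⟨fun n => x (σ n),
        (memℓp_gen_iff hp).2 (((memℓp_gen_iff hp).1 (lp.memℓp x)).comp_injective σ.injective)⟩
      map_add' := fun x y => by ext n; rfl
      map_smul' := fun c x => by ext n; rfl } 1 (fun x => by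
        rw [one_mul, lp.norm_eq_tsum_rpow hp, lp.norm_eq_tsum_rpow hp]
        have := σ.tsum_eq (fun n => ‖x n‖ ^ p.toReal)
        exact le_of_eq (congrArg (fun s => s ^ (1 / p.toReal)) this))

theorem permCLM_apply (hp : 0 < p.toReal) (σ : Equiv.Perm ℕ) (x : lp (fun _ : ℕ => 𝕜) p) (n : ℕ) :
    (permCLM hp 𝕜 σ x) n = x (σ n) := rfl

theorem norm_permCLM_le (hp : 0 < p.toReal) (σ : Equiv.Perm ℕ) : ‖permCLM hp 𝕜 σ‖ ≤ 1 :=
  LinearMap.mkContinuous_norm_le _ zero_le_one _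

theorem ent_permCLM (hp : 0 < p.toReal) (σ : Equiv.Perm ℕ) (m n : ℕ) :
    ent (permCLM hp 𝕜 σ) m n = if σ m = n then 1 else 0 := by
  rw [ent, permCLM_apply, lp.single_apply]
  by_cases h : σ m = n
  · subst h; simp
  · simp [h]

theorem DD_perm (hp : 0 < p.toReal) (i j k : ℕ) (hi : i < k) (hj : j < k) :
    DD p 𝕜 k j (permCLM hp 𝕜 (perm i)) = if i = j then 1 else 0 := by
  rw [DD_apply, dd, dif_pos hj]
  simp only [ent_permCLM, perm_blk i k hi, (blk_injective k).eq_iff]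
  by_cases hij : i = j
  · subst hij
    simp only [if_true, Finset.sum_const, Finset.card_univ, Fintype.card_fun, Fintype.card_bool,
      Fintype.card_fin, nsmul_eq_mul, mul_one]
    push_cast
    rw [← mul_pow]; norm_num
  · rw [if_neg hij, Finset.sum_eq_zero, mul_zero]
    intro a _
    rw [if_neg]
    intro h
    have := congrFun h ⟨i, hi⟩
    have hne : (⟨i, hi⟩ : Fin k) ≠ ⟨j, hj⟩ := by simpa using hij
    rw [flip, flip, Function.update_self, Function.update_of_ne hne] at this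
    simp at this

theorem main (hp1 : 1 < p) (hp2 : p ≠ 2) (hp3 : p ≠ ∞) :
    ¬ IsGrothendieck 𝕜 (lp (fun _ : ℕ => 𝕜) p →L[𝕜] lp (fun _ : ℕ => 𝕜) p) := by
  obtain ⟨C, hC⟩ := exists_bound (𝕜 := 𝕜) hp1 hp2 hp3
  have hp0 : 0 < p.toReal := ENNReal.toReal_pos (zero_lt_one.trans hp1).ne' hp3
  exact not_isGrothendieck (DD p 𝕜) norm_DD_le C hC (fun i => permCLM hp0 𝕜 (perm i))
    (fun i => norm_permCLM_le hp0 _) (fun i j k hi hj => DD_perm hp0 i j k hi hj)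

end Pool.Agent.Helper5.LpG
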